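import Pool.Agent.H.MP_874169_lc.G

set_option autoImplicit false

namespace Pool.Agent.Results.MP_874169_lc.Nice

def Rat {A : Type} (R : Set (FreeGroup A)) : Prop := ∃ l : Language (A × Bool), l.IsRegular ∧ R = FreeGroup.mk '' l

def Quad {A Ω : Type} [DecidableEq A] [DecidableEq Ω] (W : FreeGroup (A ⊕ Ω)) : Prop :=
  ∀ X : Ω, (W.toWord.filter fun x => x.1 = Sum.inr X).length ≤ 2

def Sol {A Ω : Type} (W : FreeGroup (A ⊕ Ω)) (L : Ω → Set (FreeGroup A)) : Set (FreeGroup (A ⊕ Ω) →* FreeGroup A) :=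
  {σ | (∀ a, σ (FreeGroup.of (Sum.inl a)) = FreeGroup.of a) ∧ σ W = 1 ∧ ∀ X, σ (FreeGroup.of (Sum.inr X)) ∈ L X}

def ExpGe {A Ω : Type} [DecidableEq A] (σ : FreeGroup (A ⊕ Ω) →* FreeGroup A) (e : ℕ) : Prop :=
  ∃ (X : Ω) (p : List (A × Bool)), p ≠ [] ∧ (List.replicate e p).flatten <:+: (σ (FreeGroup.of (Sum.inr X))).toWord

theorem result (A Ω : Type) [Finite A] [Finite Ω] [DecidableEq A] [DecidableEq Ω] (W : FreeGroup (A ⊕ Ω)) (hW : Quad W)
    (L : Ω → Set (FreeGroup A)) (hL : ∀ X, Rat (L X)) : (Sol W L).Infinite ↔ ∀ e : ℕ, ∃ σ ∈ Sol W L, ExpGe σ e := by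
  choose l hl hL using hL
  obtain rfl : L = fun X => FreeGroup.mk '' l X := funext hL
  refine ⟨fun h e => ?_, fun h f => ?_⟩
  · obtain ⟨K, hK⟩ := Pool.Agent.H.MP_874169_lc.main W hW l hl e
    obtain ⟨σ, s, X, hX⟩ : ∃ σ ∈ Sol W fun X => FreeGroup.mk '' l X, ∃ X, K ≤ (σ (FreeGroup.of (Sum.inr X))).toWord.length := by
      by_contra! c
      refine h (Set.Finite.of_injOn (f := fun σ X => (σ (FreeGroup.of (Sum.inr X))).toWord) (t := Set.univ.pi fun _ => {w | w.length < K})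
        (fun σ s X _ => c σ s X) (fun σ s τ t e => FreeGroup.ext_hom _ _ ?_) (Set.Finite.pi fun _ => List.finite_length_lt _ K))
      rintro (a | X)
      exacts [(s.1 a).trans (t.1 a).symm, FreeGroup.toWord_injective (congrFun e X)]
    exact hK σ s.1 s.2.1 s.2.2 X hX
  · obtain ⟨K, hK⟩ := ((f.prod (Set.finite_univ (α := Ω))).image fun p => (p.1 (FreeGroup.of (Sum.inr p.2))).toWord.length).bddAbove
    obtain ⟨σ, s, X, p, p0, hp⟩ := h (K + 1)
    have h1 := hK ⟨(σ, X), ⟨s, trivial⟩, rfl⟩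
    have h2 := hp.length_le
    have h3 := List.length_pos_iff.2 p0
    simp only [List.length_flatten, List.map_replicate, List.sum_replicate, smul_eq_mul] at h2
    dsimp only at h1
    nlinarith

end Pool.Agent.Results.MP_874169_lc.Nice
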